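import Mathlib
import Pool.Agent.Lib.MP_d81877_alF.Abstract

/-!
# MP_d81877_al: the final statement

Extension of scalars of a representation, absolutely irreducible representations, and the passage
from `Big` (algebraically closed coefficients) to the final statement.
-/

namespace Pool.Agent.MP_d81877_alS

open TensorProduct Pool.Agent.MP_d81877_alF

/-- The representation of `G` on `k' ⊗ V` obtained from a representation of `G` on `V` by
extending the scalars from `k` to `k'`: `g (a ⊗ v) = a ⊗ g v`. -/
noncomputable def extendScalars {k : Type} [Field k] (k' : Type) [Field k'] [Algebra k k']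
    {G : Type} [Group G] {V : Type} [AddCommGroup V] [Module k V] (ρ : Representation k G V) :
    Representation k' G (k' ⊗[k] V) where
  toFun g := (ρ g).baseChange k'
  map_one' := by rw [map_one]; exact LinearMap.baseChange_one _ _
  map_mul' g h := by rw [map_mul]; exact LinearMap.baseChange_mul _ _

theorem extendScalars_tmul {k : Type} [Field k] (k' : Type) [Field k'] [Algebra k k']
    {G : Type} [Group G] {V : Type} [AddCommGroup V] [Module k V] (ρ : Representation k G V)
    (g : G) (a : k') (v : V) : extendScalars k' ρ g (a ⊗ₜ[k] v) = a ⊗ₜ[k] ρ g v := by
  show (ρ g).baseChange k' (a ⊗ₜ[k] v) = _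
  rw [LinearMap.baseChange_tmul]

/-- A representation is absolutely irreducible if it is irreducible after extension of the
scalars to the algebraic closure. -/
def IsAbsolutelyIrreducible {k : Type} [Field k] {G : Type} [Group G] {V : Type}
    [AddCommGroup V] [Module k V] (ρ : Representation k G V) : Prop :=
  (extendScalars (AlgebraicClosure k) ρ).IsIrreducible

/-- Over an algebraically closed field irreducible representations are absolutely
irreducible. -/
theorem isAbsolutelyIrreducible_of_isAlgClosed {k : Type} [Field k] [IsAlgClosed k] {G : Type}
    [Group G] {V : Type} [AddCommGroup V] [Module k V] (ρ : Representation k G V)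
    (hρ : ρ.IsIrreducible) : IsAbsolutelyIrreducible ρ := by
  classical
  set k' := AlgebraicClosure k
  have hbij : Function.Bijective (algebraMap k k') :=
    IsAlgClosed.algebraMap_bijective_of_isIntegral
  -- every tensor is `1 ⊗ v`
  have hsurj : ∀ x : k' ⊗[k] V, ∃ v : V, x = (1 : k') ⊗ₜ[k] v := by
    intro x
    induction x using TensorProduct.induction_on with
    | zero => exact ⟨0, by rw [TensorProduct.tmul_zero]⟩
    | tmul a v =>
      obtain ⟨c, rfl⟩ := hbij.2 a
      exact ⟨c • v, by rw [Algebra.algebraMap_eq_smul_one, TensorProduct.smul_tmul]⟩
    | add x y hx hy =>
      obtain ⟨v, rfl⟩ := hx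
      obtain ⟨w, rfl⟩ := hy
      exact ⟨v + w, by rw [TensorProduct.tmul_add]⟩
  have hinj : Function.Injective fun v : V => (1 : k') ⊗ₜ[k] v := by
    intro v w h
    have h1 : (1 : k') ⊗ₜ[k] (v - w) = 0 := by
      rw [TensorProduct.tmul_sub]
      exact sub_eq_zero.2 h
    have h2 : v - w = 0 := by
      have h3 := Module.FaithfullyFlat.one_tmul_eq_zero_iff k V (v - w) (A := k')
      exact h3.1 h1
    exact sub_eq_zero.1 h2
  -- the order isomorphism between the subrepresentations
  let e : Subrepresentation ρ ≃o Subrepresentation (extendScalars k' ρ) :=
    { toFun := fun M => ⟨{ carrier := {x | ∃ v ∈ M.toSubmodule, x = (1 : k') ⊗ₜ[k] v}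
                           add_mem' := by
                             rintro _ _ ⟨v, hv, rfl⟩ ⟨w, hw, rfl⟩
                             exact ⟨v + w, M.toSubmodule.add_mem hv hw, by
                               rw [TensorProduct.tmul_add]⟩
                           zero_mem' := ⟨0, M.toSubmodule.zero_mem, by
                             rw [TensorProduct.tmul_zero]⟩
                           smul_mem' := by
                             rintro a _ ⟨v, hv, rfl⟩
                             obtain ⟨c, rfl⟩ := hbij.2 a
                             refine ⟨c • v, M.toSubmodule.smul_mem c hv, ?_⟩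
                             rw [TensorProduct.smul_tmul', Algebra.algebraMap_eq_smul_one,
                               smul_assoc, one_smul, TensorProduct.smul_tmul] }, by
          rintro g _ ⟨v, hv, rfl⟩
          exact ⟨ρ g v, M.apply_mem_toSubmodule g hv, extendScalars_tmul _ _ _ _ _⟩⟩
      invFun := fun M => ⟨{ carrier := {v | (1 : k') ⊗ₜ[k] v ∈ M.toSubmodule}
                            add_mem' := by
                              intro v w hv hw
                              show (1 : k') ⊗ₜ[k] (v + w) ∈ M.toSubmodule
                              rw [TensorProduct.tmul_add]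
                              exact M.toSubmodule.add_mem hv hw
                            zero_mem' := by
                              show (1 : k') ⊗ₜ[k] (0 : V) ∈ M.toSubmodule
                              rw [TensorProduct.tmul_zero]
                              exact M.toSubmodule.zero_mem
                            smul_mem' := by
                              intro c v hv
                              show (1 : k') ⊗ₜ[k] (c • v) ∈ M.toSubmodule
                              have h1 := M.toSubmodule.smul_mem (algebraMap k k' c) hv
                              rwa [TensorProduct.smul_tmul', Algebra.algebraMap_eq_smul_one,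
                                smul_assoc, one_smul, TensorProduct.smul_tmul] at h1 }, by
          intro g v hv
          show (1 : k') ⊗ₜ[k] (ρ g v) ∈ M.toSubmodule
          rw [← extendScalars_tmul]
          exact M.apply_mem_toSubmodule g hv⟩
      left_inv := by
        intro M
        ext v
        constructor
        · rintro ⟨w, hw, h⟩
          rw [hinj h]
          exact hw
        · intro hv
          exact ⟨v, hv, rfl⟩
      right_inv := by
        intro M
        ext x
        constructor
        · rintro ⟨v, hv, rfl⟩
          exact hv
        · intro hx
          obtain ⟨v, rfl⟩ := hsurj x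
          exact ⟨v, hx, rfl⟩
      map_rel_iff' := by
        intro M M'
        constructor
        · intro h v hv
          obtain ⟨w, hw, h1⟩ := h (show (1 : k') ⊗ₜ[k] v ∈ _ from ⟨v, hv, rfl⟩)
          rw [hinj h1]
          exact hw
        · rintro h _ ⟨v, hv, rfl⟩
          exact ⟨v, h hv, rfl⟩ }
  exact (OrderIso.isSimpleOrder_iff e).1 hρ

/-- From `Big` to the final statement. -/
theorem exists_of_big {C : ℕ} (h : Big C) :
    ∃ (k : Type) (_ : Field k) (G : Type) (_ : Group G) (_ : Finite G)
      (V : Type) (_ : AddCommGroup V) (_ : Module k V) (_ : FiniteDimensional k V)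
      (ρ : Representation k G V), Function.Injective ρ ∧ IsAbsolutelyIrreducible ρ ∧
        C ≤ Module.finrank k (groupCohomology.H1 (Rep.of ρ)) := by
  obtain ⟨k, i1, i2, G, i3, i4, V, i5, i6, i7, ρ, h1, h2, h3⟩ := h
  exact ⟨k, i1, G, i3, i4, V, i5, i6, i7, ρ, h1, isAbsolutelyIrreducible_of_isAlgClosed ρ h2, h3⟩

end Pool.Agent.MP_d81877_alS
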